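import Pool.Agent.N52.ST.Stm

/-!
# Project ST (helper52): basic facts about classes (helper163)
-/

set_option autoImplicit false
set_option linter.unusedSectionVars false

namespace Pool.Agent.N163.ST.KKZ

open Matrix Finset
open scoped ComplexOrder
open Pool.Agent.W661.RC Pool.Agent.W683.RC Pool.Agent.N303.KQ Pool.Agent.N52.NH Pool.Agent.N52.ST

noncomputable section

variable {d : ℕ} {O : Out d}

theorem eu_mul_ne {i j : O.I} (h : i ≠ j) : eu O i i * eu O j j = 0 := by
  ext a b
  rw [Matrix.mul_apply]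
  simp only [eu]
  refine sum_eq_zero fun c _ => ?_
  by_cases h2 : a = i ∧ c = i
  · rw [if_neg (c := c = j ∧ b = j), mul_zero]
    rintro ⟨h3, _⟩
    exact h (by rw [← h3, h2.2])
  · rw [if_neg h2, zero_mul]

theorem Am_zero : Am O (0 : Matrix O.I O.I ℂ) = 0 := by rw [Am, Bm_zero]; simp

theorem pr_orth {i j : O.I} (h : i ≠ j) : pr O i * pr O j = 0 := by
  rw [pr, pr, Am_mul (BD_eu rfl), eu_mul_ne h, Am_zero]

/-- the projection of a set of rows -/
def PP (O : Out d) (A : Finset O.I) : Mt d := ∑ i ∈ A, pr O i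

theorem PP_mul (A B : Finset O.I) : PP O A * PP O B = PP O (A ∩ B) := by
  rw [PP, PP, Finset.sum_mul_sum, PP]
  have h : ∀ i ∈ A, ∑ j ∈ B, pr O i * pr O j = if i ∈ B then pr O i else 0 := by
    intro i _
    by_cases hi : i ∈ B
    · rw [if_pos hi, sum_eq_single i, (pr_isPr i).2]
      · intro j _ hj
        exact pr_orth (Ne.symm hj)
      · intro h
        exact absurd hi h
    · rw [if_neg hi]
      refine sum_eq_zero fun j hj => pr_orth ?_
      rintro rfl
      exact hi hj
  rw [sum_congr rfl h, Finset.sum_ite_mem]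

theorem PP_pr (A : Finset O.I) : IsPr (PP O A) := by
  refine ⟨?_, ?_⟩
  · rw [PP, Matrix.conjTranspose_sum]
    exact sum_congr rfl fun i _ => (pr_isPr i).1
  · rw [PP_mul, Finset.inter_self]

theorem PP_empty : PP O ∅ = 0 := by rw [PP, sum_empty]

/-- diagonal matrix of the indicator -/
def dg (O : Out d) (A : Finset O.I) : Matrix O.I O.I ℂ := ∑ i ∈ A, eu O i i

theorem dg_apply (A : Finset O.I) (a b : O.I) : dg O A a b = if a = b ∧ a ∈ A then 1 else 0 := by
  rw [dg, Matrix.sum_apply]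
  simp only [eu]
  by_cases h : a = b ∧ a ∈ A
  · rw [if_pos h, sum_eq_single a]
    · rw [if_pos ⟨rfl, h.1.symm⟩]
    · intro i _ hi
      rw [if_neg (fun h2 => hi h2.1.symm)]
    · intro h2
      exact absurd h.2 h2
  · rw [if_neg h]
    refine sum_eq_zero fun i hi => ?_
    rw [if_neg]
    rintro ⟨rfl, rfl⟩
    exact h ⟨rfl, hi⟩

theorem dg_BD (A : Finset O.I) : BD O (dg O A) := by
  intro i j hij
  rw [dg_apply, if_neg]
  rintro ⟨rfl, _⟩
  exact hij rfl

theorem PP_eq (A : Finset O.I) : PP O A = Am O (dg O A) := by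
  rw [dg, Am_sum]
  rfl

theorem PP_mem (A : Finset O.I) : PP O A ∈ O.alg := by
  rw [PP_eq]
  exact Am_mem (dg_BD A)

theorem PP_comm (A : Finset O.I) (hA : ∀ i j, O.c i = O.c j → i ∈ A → j ∈ A) (a : Mt d)
    (ha : a ∈ O.alg) : PP O A * a = a * PP O A := by
  obtain ⟨α, hα, rfl⟩ := mem_alg.1 ha
  rw [PP_eq, Am_mul (dg_BD A), Am_mul hα]
  congr 1
  ext i j
  rw [Matrix.mul_apply, Matrix.mul_apply]
  simp only [dg_apply]
  rw [sum_eq_single i, sum_eq_single j]
  · by_cases h : O.c i = O.c j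
    · by_cases hi : i ∈ A
      · have hj := hA i j h hi
        rw [if_pos ⟨rfl, hi⟩, if_pos ⟨rfl, hj⟩, one_mul, mul_one]
      · have hj : j ∉ A := fun hj => hi (hA j i h.symm hj)
        rw [if_neg (fun h => hi h.2), if_neg (fun h => hj h.2), zero_mul, mul_zero]
    · rw [hα i j h, zero_mul, mul_zero]
  · intro m _ hm
    rw [if_neg (fun h => hm h.1), mul_zero]
  · intro h
    exact absurd (mem_univ _) h
  · intro m _ hm
    rw [if_neg (fun h => hm h.1.symm), zero_mul]
  · intro h
    exact absurd (mem_univ _) h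

theorem hs_PP_mul (A : Finset O.I) (x : Mt d) : hs (PP O A * x) = ∑ i ∈ A, hs (pr O i * x) := by
  have h1 : ∀ i, hs (pr O i * x) = tr (xᴴ * pr O i * x) := by
    intro i
    rw [hs_eq_tr, Matrix.conjTranspose_mul, (pr_isPr i).1]
    congr 1
    calc xᴴ * pr O i * (pr O i * x) = xᴴ * (pr O i * pr O i) * x := by
          simp only [Matrix.mul_assoc]
      _ = _ := by rw [(pr_isPr i).2]
  simp only [h1]
  rw [← tr_sum, ← Matrix.sum_mul, ← Matrix.mul_sum]
  rw [hs_eq_tr, Matrix.conjTranspose_mul, (PP_pr A).1]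
  congr 1
  calc xᴴ * PP O A * (PP O A * x) = xᴴ * (PP O A * PP O A) * x := by
        simp only [Matrix.mul_assoc]
    _ = _ := by rw [(PP_pr A).2]; rfl

theorem hs_mul_PP (A : Finset O.I) (x : Mt d) : hs (x * PP O A) = ∑ i ∈ A, hs (x * pr O i) := by
  rw [← Pool.Agent.W683.RC.hs_conjTranspose, Matrix.conjTranspose_mul, (PP_pr A).1, hs_PP_mul]
  refine sum_congr rfl fun i _ => ?_
  rw [← Pool.Agent.W683.RC.hs_conjTranspose (x * pr O i), Matrix.conjTranspose_mul,
    (pr_isPr i).1]

/-- the rows of a class -/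
def rw' (O : Out d) (κ : O.K) : Finset O.I := univ.filter fun i => O.c i = κ

theorem ZT_eq (T : O.I → Prop) (A : Finset O.I) (hA : ∀ i, i ∈ A ↔ T i) : ZT O T = PP O A := by
  classical
  rw [ZT, PP]
  refine sum_congr ?_ fun _ _ => rfl
  ext i
  rw [hA]
  exact Finset.mem_filter.trans (and_iff_right (mem_univ i))

theorem zc_eq (κ : O.K) : zc O κ = PP O (rw' O κ) :=
  ZT_eq _ _ fun i => by simp [rw']

theorem main : S_KKZ := by
  classical
  intro d O
  refine ⟨fun κ => ?_, fun κ κ' hκ => ?_, ?_, fun T => ?_, fun t => ?_, fun g κ' κ => ?_⟩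
  · rw [zc_eq]
    refine ⟨PP_pr _, PP_mem _, PP_comm _ fun i j h hi => ?_⟩
    simp only [rw', mem_filter, mem_univ, true_and] at hi ⊢
    rw [← h, hi]
  · rw [zc_eq, zc_eq, PP_mul]
    have h : rw' O κ ∩ rw' O κ' = ∅ := by
      ext i
      simp only [rw', mem_inter, mem_filter, mem_univ, true_and, notMem_empty, iff_false, not_and]
      intro h1 h2
      exact hκ (h1.symm.trans h2)
    rw [h, PP_empty]
  · rw [← sum_pr]
    simp only [zc_eq]
    exact Finset.sum_fiberwise_of_maps_to (s := univ) (t := cl O) (g := O.c)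
      (fun i _ => mem_image_of_mem _ (mem_univ i)) (fun i => pr O i)
  · simp only [zc_eq]
    rw [ZT_eq (O := O) (fun i => T (O.c i)) (univ.filter fun i => T (O.c i)) (by simp)]
    have h := Finset.sum_fiberwise_of_maps_to (s := univ.filter fun i => T (O.c i))
      (t := @Finset.filter _ T (Classical.decPred T) (cl O)) (g := O.c) (fun i hi => by
        rw [mem_filter] at hi ⊢
        exact ⟨mem_image_of_mem _ (mem_univ i), hi.2⟩) (fun i => pr O i)
    rw [PP, ← h]
    refine sum_congr rfl fun κ hκ => ?_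
    rw [mem_filter] at hκ
    rw [PP]
    refine sum_congr ?_ fun _ _ => rfl
    ext i
    simp only [rw', mem_filter, mem_univ, true_and, and_iff_right_iff_imp]
    intro h1
    rw [h1]
    exact hκ.2
  · rw [ZG, ZL, ZT_eq (O := O) (fun i => t < cc O (O.c i)) (univ.filter fun i => t < cc O (O.c i))
      (by simp), ZT_eq (O := O) (fun i => cc O (O.c i) ≤ t)
      (univ.filter fun i => ¬ t < cc O (O.c i)) (by simp), PP, PP,
      Finset.sum_filter_add_sum_filter_not, sum_pr]
  · rw [zc_eq, zc_eq, Matrix.mul_assoc, hs_PP_mul]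
    refine sum_congr rfl fun i _ => ?_
    rw [← Matrix.mul_assoc, hs_mul_PP]
    rfl

end

end Pool.Agent.N163.ST.KKZ
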